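import Pool.Agent.H12.UCR.Stmts

/-!
Row FWD of the board `ucr`
-/

set_option autoImplicit false

open MeasureTheory Filter Topology

namespace Pool.UCR

theorem fwd_near_open (hCTF : CTFS) (p m : ℕ) (η : ℝ) (c : ℕ → ℂ) :
    IsOpen {μ : PP p | Near m η (fc μ) c} := by
  have h : {μ : PP p | Near m η (fc μ) c} =
      ⋂ j ∈ Finset.range (m + 1), {μ : PP p | ‖fc μ j - c j‖ < η} := by
    ext μ
    simp only [Set.mem_setOf_eq, Set.mem_iInter, Finset.mem_range]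
    constructor
    · intro h j hj
      exact h j (by omega)
    · intro h j hj
      exact h j (by omega)
  rw [h]
  refine isOpen_biInter_finset fun j _ => ?_
  exact isOpen_lt ((hCTF p j).sub continuous_const).norm continuous_const

theorem fwd_closed (hCTF : CTFS) (p q k M : ℕ) (ε : ℝ) :
    IsClosed {μ : PP p | ∀ N : ℕ, M ≤ N → ‖Av q k N (fc μ)‖ ≤ ε} := by
  have h : {μ : PP p | ∀ N : ℕ, M ≤ N → ‖Av q k N (fc μ)‖ ≤ ε} =
      ⋂ N : ℕ, ⋂ _ : M ≤ N, {μ : PP p | ‖Av q k N (fc μ)‖ ≤ ε} := by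
    ext μ
    simp only [Set.mem_setOf_eq, Set.mem_iInter]
  rw [h]
  refine isClosed_iInter fun N => isClosed_iInter fun _ => ?_
  refine isClosed_le ?_ continuous_const
  unfold Av
  exact (continuous_const.mul (continuous_finset_sum _ fun n _ => hCTF p (k * q ^ n))).norm

theorem fwd_thm (hCPT : CPTS) (hCTF : CTFS) (hNBH : NBHS) (hORB : ORBS) (hDNS : DNSS)
    (hWYL : WYLS) : FWDS := by
  intro p q hp hq hres k hk ε hε L0 hL0 a0 m0 η0 hη0
  obtain ⟨G, hGδ, hGd, hG⟩ := hres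
  obtain ⟨-, -, hB⟩ := hCPT p
  have hVo := fwd_near_open hCTF p m0 η0 (S p L0 a0)
  obtain ⟨μ0, hμ0⟩ := hORB p L0 a0 hp hL0
  have hVn : {μ : PP p | Near m0 η0 (fc μ) (S p L0 a0)}.Nonempty := by
    refine ⟨μ0, fun j _ => ?_⟩
    rw [hμ0 j, sub_self, norm_zero]
    exact hη0
  set V := {μ : PP p | Near m0 η0 (fc μ) (S p L0 a0)} with hV
  have hFc : ∀ M : ℕ, IsClosed {μ : PP p | ∀ N : ℕ, M ≤ N → ‖Av q k N (fc μ)‖ ≤ ε} :=
    fun M => fwd_closed hCTF p q k M ε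
  obtain ⟨M, hM⟩ : ∃ M : ℕ,
      (interior {μ : PP p | ∀ N : ℕ, M ≤ N → ‖Av q k N (fc μ)‖ ≤ ε} ∩ V).Nonempty := by
    by_contra hno
    have hno' : ∀ M : ℕ,
        ¬ (interior {μ : PP p | ∀ N : ℕ, M ≤ N → ‖Av q k N (fc μ)‖ ≤ ε} ∩ V).Nonempty :=
      fun M h => hno ⟨M, h⟩
    have hUo : ∀ M : ℕ, IsOpen ({μ : PP p | ∀ N : ℕ, M ≤ N → ‖Av q k N (fc μ)‖ ≤ ε}ᶜ ∪
        (closure V)ᶜ) := fun M => (hFc M).isOpen_compl.union isClosed_closure.isOpen_compl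
    have hUd : ∀ M : ℕ, Dense ({μ : PP p | ∀ N : ℕ, M ≤ N → ‖Av q k N (fc μ)‖ ≤ ε}ᶜ ∪
        (closure V)ᶜ) := by
      intro M
      rw [dense_iff_inter_open]
      intro W hWo hWn
      by_cases hWV : (W ∩ V).Nonempty
      · have hWVo : IsOpen (W ∩ V) := hWo.inter hVo
        by_cases hsub : W ∩ V ⊆ {μ : PP p | ∀ N : ℕ, M ≤ N → ‖Av q k N (fc μ)‖ ≤ ε}
        · exfalso
          obtain ⟨x, hx⟩ := hWV
          exact hno' M ⟨x, interior_maximal hsub hWVo hx, hx.2⟩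
        · obtain ⟨x, hx, hx'⟩ := Set.not_subset.1 hsub
          exact ⟨x, hx.1, Or.inl hx'⟩
      · obtain ⟨x, hx⟩ := hWn
        refine ⟨x, hx, Or.inr ?_⟩
        intro hcl
        exact hWV (mem_closure_iff.1 hcl W hWo hx)
    have hD := dense_iInter_of_isOpen_nat hUo hUd
    have hGδ' : IsGδ (⋂ M : ℕ, ({μ : PP p | ∀ N : ℕ, M ≤ N → ‖Av q k N (fc μ)‖ ≤ ε}ᶜ ∪
        (closure V)ᶜ)) := IsGδ.iInter_of_isOpen hUo
    have hD2 := hGd.inter_of_Gδ hGδ hGδ' hD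
    obtain ⟨μ, hμV, hμG, hμU⟩ := hD2.inter_open_nonempty V hVo hVn
    have hlim := hWYL p q μ (hG μ hμG).2 k hk
    have hev : ∀ᶠ N : ℕ in atTop, ‖Av q k N (fc μ)‖ < ε := by
      have h1 := hlim.norm
      rw [norm_zero] at h1
      exact h1.eventually (gt_mem_nhds hε)
    obtain ⟨M, hM⟩ := eventually_atTop.1 hev
    rcases Set.mem_iInter.1 hμU M with h | h
    · exact h fun N hN => (hM N hN).le
    · exact h (subset_closure hμV)
  obtain ⟨L1, a1, hL1, μ, hμW, hμ⟩ := hDNS p hp _ (isOpen_interior.inter hVo) hM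
  refine ⟨L1, hL1, a1, ?_, ?_⟩
  · intro j hj
    rw [← hμ j]
    exact hμW.2 j hj
  obtain ⟨m, η, hη, hν⟩ := hNBH p μ _ isOpen_interior hμW.1
  refine ⟨m, η, hη, M, fun L hL a hnear N hN => ?_⟩
  obtain ⟨ν, hν'⟩ := hORB p L a hp hL
  have h1 : ν ∈ interior {μ : PP p | ∀ N : ℕ, M ≤ N → ‖Av q k N (fc μ)‖ ≤ ε} := by
    refine hν ν fun j hj => ?_
    rw [hν' j, hμ j]
    exact hnear j hj
  have h2 := interior_subset h1 N hN
  have h3 : fc ν = S p L a := funext hν'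
  rwa [h3] at h2

end Pool.UCR
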